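import Pool.Agent.H56.HS.RatePow

/-! # Powers of zero-one integers form an H-set, with a rate which is nearly a power of `N` -/

namespace Pool.Agent.Results.MP_19dfdc_nt.NearPowerRate

open Filter Topology

/-- The positive integers whose base-`b` digits are all `0` or `1` (for `b ≥ 2`): the sums of
`b ^ i` over a nonempty finite set of exponents `i`. -/
def DD (b : ℕ) : Set ℕ := {s | ∃ S : Finset ℕ, S.Nonempty ∧ s = ∑ i ∈ S, b ^ i}

/-- The set of the `d`-th powers of the elements of `DD b`. -/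
def DDpow (b d : ℕ) : Set ℕ := {n | ∃ s ∈ DD b, n = s ^ d}

/-- The distance from `x` to the nearest integer. -/
noncomputable def dist (x : ℝ) : ℝ := |x - round x|

/-- `H` is an H-set: a set of positive integers for which some `f` tending to `0` has, for all
real `γ` and all `N` such that `H` has an element `≤ N`, that some `n ∈ H` with `n ≤ N` has
`dist (n γ) ≤ f N`. -/
def IsHSet (H : Set ℕ) : Prop :=
  0 ∉ H ∧ ∃ f : ℕ → ℝ, Tendsto f atTop (𝓝 0) ∧
    ∀ (γ : ℝ) (N : ℕ), (∃ n ∈ H, n ≤ N) → ∃ n ∈ H, n ≤ N ∧ dist (n * γ) ≤ f N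

/-- (1) The squares of the zero-one integers in base `b` form an H-set, for every `b ≥ 2`. (2) For all
`b, d ≥ 2` the `d`-th powers form an H-set, and there is `c > 0` (dependent on `b` and `d` only) such that
for all real `γ` and all `N ≥ 1` some `s ∈ DD b` with `s ^ d ≤ N` has
`dist (s ^ d γ) ≤ b exp (- c log N / log (3 + log N))`; on the other hand, for every `N ≥ 1` there is a real
`γ` with `dist (s ^ d γ) ≥ 1 / (2 N)` for all `s ∈ DD b` with `s ^ d ≤ N`. -/
theorem result : (∀ b : ℕ, 2 ≤ b → IsHSet (DDpow b 2)) ∧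
    ∀ b d : ℕ, 2 ≤ b → 2 ≤ d → IsHSet (DDpow b d) ∧
      (∃ c : ℝ, 0 < c ∧ ∀ (γ : ℝ) (N : ℕ), 1 ≤ N → ∃ s ∈ DD b, s ^ d ≤ N ∧
        dist ((s : ℝ) ^ d * γ) ≤ b * Real.exp (-(c * Real.log N / Real.log (3 + Real.log N)))) ∧
      ∀ N : ℕ, 1 ≤ N → ∃ γ : ℝ, ∀ s ∈ DD b, s ^ d ≤ N → 1 / (2 * (N : ℝ)) ≤ dist ((s : ℝ) ^ d * γ) := by
  have main : ∀ b d : ℕ, 2 ≤ b → 2 ≤ d → IsHSet (DDpow b d) ∧
      (∃ c : ℝ, 0 < c ∧ ∀ (γ : ℝ) (N : ℕ), 1 ≤ N → ∃ s ∈ DD b, s ^ d ≤ N ∧
        dist ((s : ℝ) ^ d * γ) ≤ b * Real.exp (-(c * Real.log N / Real.log (3 + Real.log N)))) ∧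
      ∀ N : ℕ, 1 ≤ N → ∃ γ : ℝ, ∀ s ∈ DD b, s ^ d ≤ N → 1 / (2 * (N : ℝ)) ≤ dist ((s : ℝ) ^ d * γ) := by
    intro b d hb hd
    obtain ⟨k, rfl⟩ : ∃ k, d = k + 2 := ⟨d - 2, by omega⟩
    have hb0 : (0 : ℝ) < b := by positivity
    have hs0 : ∀ s ∈ DD b, 0 < s := by
      rintro s ⟨S, hS, hs⟩
      rw [hs]
      exact Finset.sum_pos (fun d _ => by positivity) hS
    have hpos : 0 ∉ DDpow b (k + 2) := by
      rintro ⟨s, hs, h0⟩
      have h1 := hs0 s hs
      have : 0 < s ^ (k + 2) := by positivity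
      omega
    have hone : 1 ∈ DDpow b (k + 2) := ⟨1, ⟨{0}, ⟨0, by simp⟩, by simp⟩, by simp⟩
    obtain ⟨K, hK⟩ : ∃ K, K = Pool.Agent.H56.HS.KP b k := ⟨_, rfl⟩
    have hK1 : 1 ≤ K := by rw [hK]; exact Pool.Agent.H56.HS.KP_pos hb k
    have hK0 : (0 : ℝ) < K := by exact_mod_cast hK1
    obtain ⟨c, hc⟩ : ∃ c : ℝ, c = 1 / (8 * K * b) := ⟨_, rfl⟩
    have hc0 : 0 < c := by rw [hc]; positivity
    have key : ∀ (γ : ℝ) (N : ℕ), 1 ≤ N → ∃ n ∈ DDpow b (k + 2), n ≤ N ∧ dist ((n : ℝ) * γ) ≤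
        b * Real.exp (-(c * Real.log N / Real.log (3 + Real.log N))) := by
      intro γ N hN
      have e1 : c * Real.log N / Real.log (3 + Real.log N) =
          Real.log N / (8 * K * b * Real.log (3 + Real.log N)) := by
        rw [hc]
        ring
      rw [e1]
      apply Pool.Agent.H56.HS.rate' b hb K hK1 (DDpow b (k + 2)) hone (fun n => dist ((n : ℝ) * γ)) _ _ N hN
      · exact abs_sub_round _
      · intro t ht
        obtain ⟨s, hs, hs2, hs3⟩ := Pool.Agent.H56.HS.core_pow' b hb k t ht γ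
        rw [← hK] at hs2
        refine ⟨s ^ (k + 2), ⟨s, hs, rfl⟩, hs2, ?_⟩
        push_cast
        exact hs3
    refine ⟨⟨hpos, fun N => b * Real.exp (-(c * Real.log N / Real.log (3 + Real.log N))),
      ?_, ?_⟩, ⟨c, hc0, ?_⟩, ?_⟩
    · have h1 : Tendsto (fun N : ℕ => Real.log (N : ℝ)) atTop atTop :=
        Real.tendsto_log_atTop.comp tendsto_natCast_atTop_atTop
      have h2 : Tendsto (fun x : ℝ => x / Real.log (3 + x)) atTop atTop := by
        have h3 : Tendsto (fun x : ℝ => Real.log (3 + x) / (3 + x)) atTop (𝓝[>] 0) := by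
          rw [tendsto_nhdsWithin_iff]
          constructor
          · have h4 : Tendsto (fun x : ℝ => 3 + x) atTop atTop := tendsto_atTop_add_const_left _ _ tendsto_id
            have h5 := (Real.isLittleO_log_id_atTop.tendsto_div_nhds_zero).comp h4
            exact h5
          · filter_upwards [eventually_gt_atTop 0] with x hx
            exact div_pos (Real.log_pos (by linarith)) (by linarith)
        have h6 := h3.inv_tendsto_nhdsGT_zero
        have h7 : Tendsto (fun x : ℝ => (3 + x) / Real.log (3 + x) - 3) atTop atTop := by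
          apply tendsto_atTop_add_const_right
          refine h6.congr (fun x => ?_)
          simp [inv_div]
        apply tendsto_atTop_mono' _ _ h7
        filter_upwards [eventually_gt_atTop 0] with x hx
        have hl : 1 ≤ Real.log (3 + x) := by
          rw [Real.le_log_iff_exp_le (by linarith)]
          have := Real.exp_one_lt_d9
          linarith
        have h8 : 3 / Real.log (3 + x) ≤ 3 := div_le_self (by norm_num) hl
        rw [add_div]
        linarith
      have h3 : Tendsto (fun N : ℕ => c * (Real.log (N : ℝ) / Real.log (3 + Real.log N))) atTop atTop :=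
        (h2.comp h1).const_mul_atTop hc0
      have h4 := (Real.tendsto_exp_neg_atTop_nhds_zero.comp h3).const_mul (b : ℝ)
      rw [mul_zero] at h4
      refine h4.congr (fun N => ?_)
      simp only [Function.comp]
      rw [mul_div_assoc]
    · rintro γ N ⟨n, hn, hnN⟩
      have hn1 : 1 ≤ n := by
        rcases Nat.eq_zero_or_pos n with rfl | h
        · exact absurd hn hpos
        · exact h
      exact key γ N (hn1.trans hnN)
    · intro γ N hN
      obtain ⟨n, ⟨s, hs, rfl⟩, hnN, hd⟩ := key γ N hN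
      refine ⟨s, hs, hnN, ?_⟩
      push_cast at hd
      exact hd
    · intro N hN
      have hN0 : (0 : ℝ) < N := by exact_mod_cast hN
      refine ⟨1 / (2 * (N : ℝ)), ?_⟩
      intro s hs hsN
      have h1 := hs0 s hs
      have h2 : (1 : ℝ) ≤ (s : ℝ) ^ (k + 2) := by exact_mod_cast Nat.one_le_pow (k + 2) s h1
      have h3 : ((s : ℝ)) ^ (k + 2) ≤ N := by exact_mod_cast hsN
      have h4 : 0 ≤ (s : ℝ) ^ (k + 2) * (1 / (2 * (N : ℝ))) := by positivity
      have h5 : (s : ℝ) ^ (k + 2) * (1 / (2 * (N : ℝ))) ≤ 1 / 2 := by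
        rw [mul_one_div, div_le_div_iff₀ (by positivity) (by norm_num)]
        linarith
      have h6 := Pool.Agent.W10.HS.nd_eq ((s : ℝ) ^ (k + 2) * (1 / (2 * (N : ℝ)))) 0 (by
        rw [Int.cast_zero, sub_zero, abs_of_nonneg h4]
        exact h5)
      rw [Int.cast_zero, sub_zero, abs_of_nonneg h4] at h6
      have h7 : dist ((s : ℝ) ^ (k + 2) * (1 / (2 * (N : ℝ)))) = (s : ℝ) ^ (k + 2) * (1 / (2 * (N : ℝ))) := h6
      rw [h7]
      have h8 : (0 : ℝ) < 1 / (2 * (N : ℝ)) := by positivity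
      nlinarith
  exact ⟨fun b hb => (main b 2 hb le_rfl).1, main⟩

end Pool.Agent.Results.MP_19dfdc_nt.NearPowerRate
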